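import Mathlib
import Pool.Agent.TH526.ZL.N

/-!
Integers with more than `k` distinct prime factors in intervals of length `P_k = p_1 ⋯ p_k`.
If an interval `[n, n + P_k)`, `n` large, has no such integer, then it contains a multiple of `P_k` with prime
factors `p_1, …, p_k` only, and by the finiteness of pairs of smooth numbers with a given difference (the S-unit
theorem of `TH526.ZL`) no multiple of `P_k / p` in the interval (`p ≤ p_k`) is divisible by `p_{k+1}`.  For
`p = p_k` and `p = p_{k-1}` this gives a diophantine inequality for `n mod P_k` with few solutions.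
-/

set_option autoImplicit false

open Finset Filter Topology

namespace Pool.Agent.H774EP

/-- the product of the first `k` primes -/
noncomputable def prim (k : ℕ) : ℕ := ∏ i ∈ Finset.range k, Nat.nth Nat.Prime i

def Settled (k r : ℕ) : Prop :=
  ∃ N : ℕ, ∀ n : ℕ, N ≤ n → n % prim k = r →
    ∃ m : ℕ, n ≤ m ∧ m < n + prim k ∧ k < m.primeFactors.card

open Classical in
noncomputable def unsettled (k : ℕ) : ℕ := ((range (prim k)).filter fun r => ¬ Settled k r).card

/-- the first `k` primes -/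
noncomputable def fp (k : ℕ) : Finset ℕ := (range k).image (Nat.nth Nat.Prime)

theorem nth_prime (i : ℕ) : (Nat.nth Nat.Prime i).Prime := Nat.prime_nth_prime i

theorem nth_inj : Function.Injective (Nat.nth Nat.Prime) := Nat.nth_injective Nat.infinite_setOfPred_prime

theorem card_fp (k : ℕ) : (fp k).card = k := by
  unfold fp
  rw [card_image_of_injective _ nth_inj, card_range]

theorem prim_eq (k : ℕ) : prim k = ∏ p ∈ fp k, p := by
  unfold prim fp
  rw [prod_image (fun a _ b _ h => nth_inj h)]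

theorem fp_prime {k p : ℕ} (h : p ∈ fp k) : p.Prime := by
  unfold fp at h
  rw [mem_image] at h
  obtain ⟨i, _, rfl⟩ := h
  exact nth_prime i

theorem prim_pos (k : ℕ) : 0 < prim k := by
  rw [prim_eq]; exact prod_pos fun p hp => (fp_prime hp).pos

theorem not_mem_fp {k i : ℕ} (h : k ≤ i) : Nat.nth Nat.Prime i ∉ fp k := by
  unfold fp
  rw [mem_image]
  rintro ⟨j, hj, he⟩
  rw [mem_range] at hj
  have := nth_inj he
  omega

/-- statement of the finiteness of smooth pairs -/
def SmoothPairs : Prop := ∀ (S : Finset ℕ), (∀ p ∈ S, p.Prime) → ∀ c : ℤ, c ≠ 0 →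
  ∃ M : ℕ, ∀ x y : ℕ, 0 < x → 0 < y → (∀ p, p.Prime → p ∣ x → p ∈ S) →
    (∀ p, p.Prime → p ∣ y → p ∈ S) → (y : ℤ) = x + c → x ≤ M

open Pool.Agent.TH551.SU in
theorem smoothPairs : SmoothPairs := by
  intro S hS c hc
  let b : Fin S.card → ℕ := fun v => (S.equivFin.symm v : ℕ)
  have hb : ∀ v, (b v).Prime := fun v => hS _ (S.equivFin.symm v).2
  have hbi : Function.Injective b := fun v w h => S.equivFin.symm.injective (Subtype.ext h)
  have hSU : ∀ x : ℕ, 0 < x → (∀ p, p.Prime → p ∣ x → p ∈ S) → IsSU b (x : ℚ) := by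
    intro x hx hxS
    refine ⟨1, fun v => (x.factorization (b v) : ℤ), Or.inl rfl, ?_⟩
    have h1 : x = ∏ p ∈ S, p ^ x.factorization p := by
      conv_lhs => rw [← Nat.prod_factorization_pow_eq_self hx.ne']
      exact Finsupp.prod_of_support_subset _ (fun p hp => by
        rw [Nat.support_factorization] at hp
        exact hxS p (Nat.prime_of_mem_primeFactors hp) (Nat.dvd_of_mem_primeFactors hp)) _
        (fun p _ => pow_zero p)
    have h2 : (∏ v, (b v : ℚ) ^ ((x.factorization (b v) : ℕ) : ℤ)) = ∏ p ∈ S, (p : ℚ) ^ x.factorization p := by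
      rw [← Finset.prod_coe_sort S (fun p => (p : ℚ) ^ x.factorization p)]
      refine Fintype.prod_equiv S.equivFin.symm _ _ fun v => ?_
      rw [zpow_natCast]
    rw [h2]
    conv_lhs => rw [h1]
    push_cast
    ring
  obtain ⟨H, hH⟩ := Pool.Agent.TH526.ZL.sunit b hb hbi (m := 3) ![1, -1, -(c : ℚ)] (by
    intro i
    fin_cases i
    · simp
    · simp
    · simpa using hc) 2
  refine ⟨H + c.natAbs, fun x y hx hy hxS hyS hxy => ?_⟩
  have hxy' : (y : ℚ) = x + c := by exact_mod_cast hxy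
  obtain ⟨j, hj, h1, h2⟩ := hH ![(y : ℚ), x, 1] (by
    intro i
    fin_cases i
    · simpa using hSU y hy hyS
    · simpa using hSU x hx hxS
    · simpa using hSU 1 one_pos (fun p hp h => absurd (Nat.dvd_one.1 h) hp.one_lt.ne')) (by
    rw [Fin.sum_univ_three]
    simp
    linarith)
  fin_cases j
  · simp only [Fin.zero_eta, Matrix.cons_val_zero, Matrix.cons_val, one_div] at h2
    rw [Rat.inv_natCast_den_of_pos hy] at h2
    omega
  · simp only [Fin.mk_one, Matrix.cons_val_one, Matrix.cons_val, one_div] at h2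
    rw [Rat.inv_natCast_den_of_pos hx] at h2
    omega
  · exact absurd rfl hj

/-- if `∏_{p ∈ T} p ∣ m`, `m ≠ 0` and `m` has at most `|T|` prime factors, they are those of `T` -/
theorem pf_eq {T : Finset ℕ} (hT : ∀ p ∈ T, p.Prime) {m : ℕ} (hm : m ≠ 0) (hd : ∀ p ∈ T, p ∣ m)
    (hc : m.primeFactors.card ≤ T.card) : m.primeFactors = T := by
  refine (eq_of_subset_of_card_le ?_ hc).symm
  intro p hp
  exact Nat.mem_primeFactors.2 ⟨hT p hp, hd p hp, hm⟩

theorem keyK (hSP : SmoothPairs) (k : ℕ) : ∃ N : ℕ, ∀ n : ℕ, N ≤ n →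
    (∀ m, n ≤ m → m < n + prim k → m.primeFactors.card ≤ k) →
    ∀ p ∈ fp k, ∀ m', n ≤ m' → m' < n + prim k → (prim k / p) ∣ m' → ¬ Nat.nth Nat.Prime k ∣ m' := by
  classical
  set q := Nat.nth Nat.Prime k with hq
  have hqp : q.Prime := nth_prime k
  have hqn : q ∉ fp k := not_mem_fp le_rfl
  have hS : ∀ p ∈ insert q (fp k), p.Prime := by
    intro p hp
    rcases mem_insert.1 hp with rfl | hp
    · exact hqp
    · exact fp_prime hp
  have hex : ∀ c : ℤ, ∃ M : ℕ, c ≠ 0 → ∀ x y : ℕ, 0 < x → 0 < y →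
      (∀ p, p.Prime → p ∣ x → p ∈ insert q (fp k)) →
      (∀ p, p.Prime → p ∣ y → p ∈ insert q (fp k)) → (y : ℤ) = x + c → x ≤ M := by
    intro c
    by_cases hc : c = 0
    · exact ⟨0, fun h => absurd hc h⟩
    · obtain ⟨M, hM⟩ := hSP _ hS c hc
      exact ⟨M, fun _ => hM⟩
  choose M hM using hex
  refine ⟨1 + ∑ c ∈ Finset.Ioo (-(prim k : ℤ)) (prim k), M c, ?_⟩
  intro n hn hall p hp m' h1 h2 hD hqm
  have hn0 : 0 < n := by omega
  have hP := prim_pos k
  -- the multiple of `P`
  obtain ⟨m, hm1, hm2, hm3⟩ : ∃ m, n ≤ m ∧ m < n + prim k ∧ prim k ∣ m := by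
    refine ⟨prim k * ((n + prim k - 1) / prim k), ?_, ?_, dvd_mul_right _ _⟩
    · have := Nat.div_add_mod (n + prim k - 1) (prim k)
      have h3 := Nat.mod_lt (n + prim k - 1) hP
      omega
    · have := Nat.div_add_mod (n + prim k - 1) (prim k)
      omega
  have hmd : ∀ l ∈ fp k, l ∣ m := fun l hl => ((prim_eq k) ▸ dvd_prod_of_mem _ hl : l ∣ prim k).trans hm3
  have hpm : m.primeFactors = fp k :=
    pf_eq (fun l hl => fp_prime hl) (by omega) hmd (by rw [card_fp]; exact hall m hm1 hm2)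
  have hDl : ∀ l ∈ (fp k).erase p, l ∣ m' := by
    intro l hl
    have hl' := mem_erase.1 hl
    have : prim k = p * ∏ x ∈ (fp k).erase p, x := by
      rw [prim_eq, mul_prod_erase _ (fun x => x) hp]
    have h3 : prim k / p = ∏ x ∈ (fp k).erase p, x := by
      rw [this, Nat.mul_div_cancel_left _ (fp_prime hp).pos]
    rw [h3] at hD
    exact (dvd_prod_of_mem _ hl).trans hD
  have hqe : q ∉ (fp k).erase p := fun h => hqn (mem_of_mem_erase h)
  have hcard : (insert q ((fp k).erase p)).card = k := by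
    rw [card_insert_of_notMem hqe, card_erase_of_mem hp, card_fp]
    have : 0 < (fp k).card := card_pos.2 ⟨p, hp⟩
    rw [card_fp] at this
    omega
  have hpm' : m'.primeFactors = insert q ((fp k).erase p) := by
    refine pf_eq ?_ (by omega) ?_ (by rw [hcard]; exact hall m' h1 h2)
    · intro l hl
      rcases mem_insert.1 hl with rfl | hl
      · exact hqp
      · exact fp_prime (mem_of_mem_erase hl)
    · intro l hl
      rcases mem_insert.1 hl with rfl | hl
      · exact hqm
      · exact hDl l hl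
  have hne : m ≠ m' := by
    rintro rfl
    rw [hpm] at hpm'
    exact hqn (hpm' ▸ mem_insert_self _ _)
  have h5 := hM ((m' : ℤ) - m) (by intro h; apply hne; omega) m m' (by omega) (by omega)
    (fun l hl hlm => mem_insert_of_mem (hpm ▸ Nat.mem_primeFactors.2 ⟨hl, hlm, by omega⟩))
    (fun l hl hlm => by
      have : l ∈ m'.primeFactors := Nat.mem_primeFactors.2 ⟨hl, hlm, by omega⟩
      rw [hpm'] at this
      rcases mem_insert.1 this with rfl | h
      · exact mem_insert_self _ _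
      · exact mem_insert_of_mem (mem_of_mem_erase h)) (by ring)
  have h6 : M ((m' : ℤ) - m) ≤ ∑ c ∈ Finset.Ioo (-(prim k : ℤ)) (prim k), M c :=
    single_le_sum (f := M) (fun _ _ => Nat.zero_le _) (mem_Ioo.2 ⟨by omega, by omega⟩)
  omega

/-- multiples of `D = P / p` in the interval: the residues -/
theorem resid {P p q n : ℕ} (hp : 0 < p) (hpP : p ∣ P) (hP : 0 < P) (hq : 0 < q)
    (h : ∀ m', n ≤ m' → m' < n + P → (P / p) ∣ m' → ¬ q ∣ m') :
    ∃ z : ℤ, (P : ℤ) * (q * z) < n * p ∧ (n : ℤ) * p ≤ P * (q * z + (q - p)) := by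
  obtain ⟨D, rfl⟩ := hpP
  have hD : 0 < D := Nat.pos_of_mul_pos_left hP |> fun h => by
    rcases Nat.eq_zero_or_pos D with h0 | h0
    · subst h0; simp at hP
    · exact h0
  rw [Nat.mul_div_cancel_left _ hp] at h
  set y := (n + D - 1) / D with hy
  have hy1 := Nat.div_add_mod (n + D - 1) D
  have hy2 := Nat.mod_lt (n + D - 1) hD
  rw [← hy] at hy1
  have hny : n ≤ D * y := by omega
  have hny2 : D * y < n + D := by omega
  have key : ∀ i < p, ¬ q ∣ y + i := by
    intro i hi hdv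
    refine h (D * (y + i)) ?_ ?_ (dvd_mul_right _ _) (hdv.mul_left _)
    · nlinarith
    · have : D * i + D ≤ p * D := by
        have : i + 1 ≤ p := hi
        nlinarith
      nlinarith
  set ρ := y % q with hρ
  have hz := Nat.div_add_mod y q
  have hρq : ρ < q := Nat.mod_lt _ hq
  have h1 : 1 ≤ ρ := by
    by_contra hcon
    have : ρ = 0 := by omega
    exact key 0 hp (by simpa using Nat.dvd_of_mod_eq_zero this)
  have h2 : ρ + p ≤ q := by
    by_contra hcon
    push Not at hcon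
    refine key (q - ρ) (by omega) ?_
    have : y + (q - ρ) = q * (y / q + 1) := by
      rw [mul_add, mul_one]; omega
    rw [this]; exact dvd_mul_right _ _
  refine ⟨(y / q : ℕ), ?_, ?_⟩
  · have e1 : (D : ℤ) * y < n + D := by exact_mod_cast hny2
    have e2 : (q : ℤ) * ((y / q : ℕ) : ℤ) + ρ = y := by exact_mod_cast hz
    have e3 : (1 : ℤ) ≤ ρ := by exact_mod_cast h1
    have hDz : (0 : ℤ) < D := by exact_mod_cast hD
    have hpz : (0 : ℤ) < p := by exact_mod_cast hp
    have e4 : (D : ℤ) * (q * ((y / q : ℕ) : ℤ)) < n := by nlinarith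
    push_cast
    nlinarith
  · have e1 : (n : ℤ) ≤ D * y := by exact_mod_cast hny
    have e2 : (q : ℤ) * ((y / q : ℕ) : ℤ) + ρ = y := by exact_mod_cast hz
    have e3 : (ρ : ℤ) + p ≤ q := by exact_mod_cast h2
    have hDz : (0 : ℤ) < D := by exact_mod_cast hD
    have hpz : (0 : ℤ) < p := by exact_mod_cast hp
    have e4 : (n : ℤ) ≤ D * (q * ((y / q : ℕ) : ℤ) + (q - p)) := by nlinarith
    push_cast
    nlinarith

theorem combine {P q a b n : ℕ} (hP : 0 < P) {za zb : ℤ} (ha : a < b) (hb : b < q)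
    (h1 : (P : ℤ) * (q * zb) < n * b) (h2 : (n : ℤ) * b ≤ P * (q * zb + (q - b)))
    (h3 : (P : ℤ) * (q * za) < n * a) (h4 : (n : ℤ) * a ≤ P * (q * za + (q - a))) :
    ∃ Y : ℤ, (q : ℤ) * |((n % P : ℕ) : ℤ) * (b - a) - P * Y| < P * ((q - b) * (q - a)) := by
  have hPz : (0 : ℤ) < P := by exact_mod_cast hP
  have haz : (a : ℤ) < b := by exact_mod_cast ha
  have hbz : (b : ℤ) < q := by exact_mod_cast hb
  have hn : (n : ℤ) = P * ((n / P : ℕ) : ℤ) + ((n % P : ℕ) : ℤ) := by exact_mod_cast (Nat.div_add_mod n P).symm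
  have hq : (0 : ℤ) < q := by have : (0 : ℤ) ≤ b := Nat.cast_nonneg _; linarith
  refine ⟨zb * (q - a) - za * (q - b) - (n / P : ℕ) * (b - a), ?_⟩
  set r : ℤ := ((n % P : ℕ) : ℤ) with hr
  set Q : ℤ := ((n / P : ℕ) : ℤ) with hQ
  have e : (q : ℤ) * (r * (b - a) - P * (zb * (q - a) - za * (q - b) - Q * (b - a))) =
      (n * b - P * (q * zb)) * (q - a) - (n * a - P * (q * za)) * (q - b) := by
    rw [hn]; ring
  rw [← abs_of_pos hq, ← abs_mul, abs_of_pos hq, e, abs_lt]
  constructor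
  · nlinarith [mul_pos (sub_pos.2 h1) (sub_pos.2 (haz.trans hbz)),
      mul_nonneg (sub_nonneg.2 h4) (sub_pos.2 hbz).le]
  · nlinarith [mul_pos (sub_pos.2 h3) (sub_pos.2 hbz),
      mul_nonneg (sub_nonneg.2 h2) (sub_pos.2 (haz.trans hbz)).le]


theorem nth_lt {i j : ℕ} (h : i < j) : Nat.nth Nat.Prime i < Nat.nth Nat.Prime j :=
  Nat.nth_strictMono Nat.infinite_setOfPred_prime h

theorem mem_fp {i k : ℕ} (h : i < k) : Nat.nth Nat.Prime i ∈ fp k := by
  unfold fp
  exact mem_image_of_mem _ (mem_range.2 h)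

theorem dvd_prim {p k : ℕ} (h : p ∈ fp k) : p ∣ prim k := (prim_eq k) ▸ dvd_prod_of_mem _ h

theorem bad (hSP : SmoothPairs) {k r : ℕ} (hk : 2 ≤ k) (hr : ¬ Settled k r) :
    ∃ Y : ℤ, (Nat.nth Nat.Prime k : ℤ) *
      |(r : ℤ) * ((Nat.nth Nat.Prime (k - 1) : ℤ) - Nat.nth Nat.Prime (k - 2)) - prim k * Y| <
      prim k * (((Nat.nth Nat.Prime k : ℤ) - Nat.nth Nat.Prime (k - 1)) *
        ((Nat.nth Nat.Prime k : ℤ) - Nat.nth Nat.Prime (k - 2))) := by
  obtain ⟨N, hN⟩ := keyK hSP k
  unfold Settled at hr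
  push Not at hr
  obtain ⟨n, hn, hnr, hall⟩ := hr N
  have hb := mem_fp (show k - 1 < k by omega)
  have ha := mem_fp (show k - 2 < k by omega)
  have hK := hN n hn hall
  obtain ⟨zb, h1, h2⟩ := resid (nth_prime (k - 1)).pos (dvd_prim hb) (prim_pos k) (nth_prime k).pos
    (hK _ hb)
  obtain ⟨za, h3, h4⟩ := resid (nth_prime (k - 2)).pos (dvd_prim ha) (prim_pos k) (nth_prime k).pos
    (hK _ ha)
  obtain ⟨Y, hY⟩ := combine (prim_pos k) (nth_lt (show k - 2 < k - 1 by omega))
    (nth_lt (show k - 1 < k by omega)) h1 h2 h3 h4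
  rw [hnr] at hY
  exact ⟨Y, hY⟩

theorem card_near {S : Finset ℕ} {E c κ : ℝ} (hE : 0 < E) (hκ : 0 ≤ κ)
    (h : ∀ r ∈ S, |(r : ℝ) * E - c| < κ) : (S.card : ℝ) ≤ 2 * κ / E + 1 := by
  rcases S.eq_empty_or_nonempty with rfl | hne
  · simp only [card_empty, Nat.cast_zero]; positivity
  have hsub : S.image (fun r : ℕ => (r : ℤ)) ⊆ Finset.Icc ⌈(c - κ) / E⌉ ⌊(c + κ) / E⌋ := by
    intro x hx
    obtain ⟨r, hr, rfl⟩ := mem_image.1 hx
    have h1 := abs_lt.1 (h r hr)
    rw [mem_Icc]
    constructor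
    · rw [Int.ceil_le, div_le_iff₀ hE]; push_cast; linarith [h1.1]
    · rw [Int.le_floor, le_div_iff₀ hE]; push_cast; linarith [h1.2]
  have hc : S.card ≤ (⌊(c + κ) / E⌋ + 1 - ⌈(c - κ) / E⌉).toNat := by
    rw [← Int.card_Icc, ← card_image_of_injective S (Nat.cast_injective (R := ℤ))]
    exact card_le_card hsub
  have hpos : 0 < S.card := card_pos.2 hne
  have h0 : 0 < (⌊(c + κ) / E⌋ + 1 - ⌈(c - κ) / E⌉) := by
    by_contra hcon
    have := Int.toNat_of_nonpos (not_lt.1 hcon)
    omega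
  have h1 : (S.card : ℤ) ≤ ⌊(c + κ) / E⌋ + 1 - ⌈(c - κ) / E⌉ := by omega
  have h2 : (S.card : ℝ) ≤ (⌊(c + κ) / E⌋ : ℝ) + 1 - ⌈(c - κ) / E⌉ := by exact_mod_cast h1
  have h3 := Int.floor_le ((c + κ) / E)
  have h4 := Int.le_ceil ((c - κ) / E)
  have h5 : (c + κ) / E - (c - κ) / E = 2 * κ / E := by ring
  linarith

open Classical in
theorem count {P q E H : ℕ} (hP : 0 < P) (hq : 0 < q) (hE : 2 ≤ E) :
    (((range P).filter fun r : ℕ => ∃ Y : ℤ, (q : ℤ) * |(r : ℤ) * E - P * Y| < P * H).card : ℝ) ≤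
      3 * ((H : ℝ) / q) * P + E + 1 := by
  have hPr : (0 : ℝ) < P := by exact_mod_cast hP
  have hqr : (0 : ℝ) < q := by exact_mod_cast hq
  have hEr : (2 : ℝ) ≤ E := by exact_mod_cast hE
  rcases Nat.lt_or_ge H q with hH | hH
  swap
  · have h1 : (((range P).filter fun r : ℕ => ∃ Y : ℤ, (q : ℤ) * |(r : ℤ) * E - P * Y| < P * H).card : ℝ)
        ≤ P := by
      have := card_filter_le (range P) fun r : ℕ => ∃ Y : ℤ, (q : ℤ) * |(r : ℤ) * E - P * Y| < P * H
      rw [card_range] at this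
      exact_mod_cast this
    have h2 : (1 : ℝ) ≤ (H : ℝ) / q := by
      rw [le_div_iff₀ hqr, one_mul]; exact_mod_cast hH
    nlinarith
  set κ : ℝ := (P : ℝ) * H / q with hκ
  have hκ0 : 0 ≤ κ := by positivity
  have hsub : ((range P).filter fun r : ℕ => ∃ Y : ℤ, (q : ℤ) * |(r : ℤ) * E - P * Y| < P * H) ⊆
      (range (E + 1)).biUnion fun Y => (range P).filter fun r : ℕ => |(r : ℝ) * E - P * Y| < κ := by
    intro r hr
    rw [mem_filter] at hr
    obtain ⟨hr, Y, hY⟩ := hr
    have hr' := mem_range.1 hr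
    have hY1 : |(r : ℝ) * E - P * Y| < κ := by
      rw [hκ, lt_div_iff₀ hqr]
      have : ((q : ℤ) : ℝ) * ((|(r : ℤ) * E - P * Y| : ℤ) : ℝ) < ((P * H : ℤ) : ℝ) := by exact_mod_cast hY
      push_cast at this
      linarith
    have hY2 : |(r : ℤ) * E - P * Y| < P := by
      have hHz : (H : ℤ) < q := by exact_mod_cast hH
      have hPz : (0 : ℤ) < P := by exact_mod_cast hP
      have hqz : (0 : ℤ) < q := by exact_mod_cast hq
      by_contra hcon
      push Not at hcon
      nlinarith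
    have hPz : (0 : ℤ) < P := by exact_mod_cast hP
    have h3 := abs_lt.1 hY2
    have hrE : (0 : ℤ) ≤ (r : ℤ) * E := by positivity
    have hrE2 : (r : ℤ) * E ≤ P * E := by
      have : (r : ℤ) ≤ P := by exact_mod_cast hr'.le
      have hE0 : (0 : ℤ) ≤ E := by positivity
      nlinarith
    have hY0 : -1 < Y := by
      by_contra hcon
      push Not at hcon
      nlinarith [h3.2]
    have hY4 : Y < E + 1 := by
      by_contra hcon
      push Not at hcon
      nlinarith [h3.1]
    obtain ⟨y, rfl⟩ := Int.eq_ofNat_of_zero_le (show 0 ≤ Y by omega)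
    rw [mem_biUnion]
    refine ⟨y, mem_range.2 (by omega), mem_filter.2 ⟨hr, ?_⟩⟩
    simpa using hY1
  have h1 := card_le_card hsub
  have h2 := h1.trans card_biUnion_le
  have h3 : ((∑ Y ∈ range (E + 1), ((range P).filter fun r : ℕ => |(r : ℝ) * E - P * Y| < κ).card : ℕ) : ℝ)
      ≤ ∑ Y ∈ range (E + 1), (2 * κ / E + 1) := by
    rw [Nat.cast_sum]
    refine sum_le_sum fun Y _ => card_near (by linarith) hκ0 fun r hr => (mem_filter.1 hr).2
  rw [sum_const, card_range, nsmul_eq_mul] at h3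
  have h4 : (((range P).filter fun r : ℕ => ∃ Y : ℤ, (q : ℤ) * |(r : ℤ) * E - P * Y| < P * H).card : ℝ) ≤
      ((∑ Y ∈ range (E + 1), ((range P).filter fun r : ℕ => |(r : ℝ) * E - P * Y| < κ).card : ℕ) : ℝ) := by
    exact_mod_cast h2
  refine h4.trans (h3.trans ?_)
  have h5 : ((E + 1 : ℕ) : ℝ) * (2 * κ / E + 1) = 2 * κ + 2 * κ / E + E + 1 := by
    push_cast
    field_simp
    ring
  rw [h5]
  have h6 : 2 * κ / E ≤ κ := by
    rw [div_le_iff₀ (by linarith)]
    nlinarith
  have h7 : 3 * ((H : ℝ) / q) * P = 3 * κ := by rw [hκ]; ring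
  rw [h7]
  linarith

open Classical in
theorem partA (hSP : SmoothPairs) {k : ℕ} (hk : 3 ≤ k) :
    (unsettled k : ℝ) ≤ 3 * ((((Nat.nth Nat.Prime k : ℝ) - Nat.nth Nat.Prime (k - 1)) *
        ((Nat.nth Nat.Prime k : ℝ) - Nat.nth Nat.Prime (k - 2))) / Nat.nth Nat.Prime k) * prim k +
      ((Nat.nth Nat.Prime k : ℝ) - Nat.nth Nat.Prime (k - 2)) := by
  set q := Nat.nth Nat.Prime k with hq
  set b := Nat.nth Nat.Prime (k - 1) with hb
  set a := Nat.nth Nat.Prime (k - 2) with ha
  have hab : a < b := nth_lt (by omega)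
  have hbq : b < q := nth_lt (by omega)
  have hap : a.Prime := nth_prime _
  have hbp : b.Prime := nth_prime _
  have ha2 : 2 < a := by
    have h0 : Nat.nth Nat.Prime 0 < a := nth_lt (by omega)
    have := (nth_prime 0).two_le
    omega
  have hE : 2 ≤ b - a := by
    have h1 := hap.eq_two_or_odd'.resolve_left (by omega)
    have h2 := hbp.eq_two_or_odd'.resolve_left (by omega)
    obtain ⟨x, hx⟩ := h1
    obtain ⟨y, hy⟩ := h2
    omega
  have hsub : ((range (prim k)).filter fun r => ¬ Settled k r) ⊆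
      ((range (prim k)).filter fun r : ℕ => ∃ Y : ℤ, (q : ℤ) * |(r : ℤ) * (b - a : ℕ) - prim k * Y| <
        prim k * ((q - b) * (q - a) : ℕ)) := by
    intro r hr
    rw [mem_filter] at hr ⊢
    refine ⟨hr.1, ?_⟩
    obtain ⟨Y, hY⟩ := bad hSP (by omega) hr.2
    refine ⟨Y, ?_⟩
    rw [← hq, ← hb, ← ha] at hY
    push_cast [Nat.cast_sub hab.le, Nat.cast_sub hbq.le, Nat.cast_sub (hab.trans hbq).le]
    exact hY
  have h1 : (unsettled k : ℝ) ≤ _ := le_trans (by exact_mod_cast card_le_card hsub)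
    (count (prim_pos k) (nth_prime k).pos hE)
  refine h1.trans ?_
  have h2 : ((b - a : ℕ) : ℝ) = b - a := by push_cast [Nat.cast_sub hab.le]; ring
  have h3 : (((q - b) * (q - a) : ℕ) : ℝ) = ((q : ℝ) - b) * (q - a) := by
    push_cast [Nat.cast_sub hbq.le, Nat.cast_sub (hab.trans hbq).le]; ring
  rw [h2, h3]
  have h4 : (b : ℝ) + 1 ≤ q := by exact_mod_cast hbq
  linarith


/-- the bound for the `K`-th prime -/
theorem nth_le {K : ℕ} (hK : 6 ≤ K) : (Nat.nth Nat.Prime K : ℝ) ≤ 9 * K * Real.log K := by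
  set n := Nat.nth Nat.Prime K with hn
  have hnp : n.Prime := nth_prime K
  have hnK : K + 2 ≤ n := Nat.add_two_le_nth_prime K
  have hpi : Nat.primeCounting n = K + 1 := by
    unfold Nat.primeCounting Nat.primeCounting'
    rw [Nat.count_succ, if_pos hnp, hn, Nat.count_nth_of_infinite Nat.infinite_setOfPred_prime]
  have h1 := Chebyshev.psi_le_primeCounting_mul_log n
  have h2 := Chebyshev.psi_ge n
  rw [hpi] at h1
  push_cast at h1
  have hKr : (6 : ℝ) ≤ K := by exact_mod_cast hK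
  have hnr : (8 : ℝ) ≤ n := by exact_mod_cast (by omega : 8 ≤ n)
  have hlog2 := Real.log_two_gt_d9
  have hln : 0 < Real.log n := Real.log_pos (by linarith)
  have h3 : Real.log (n + 1) ≤ 2 * Real.log n := by
    rw [← Real.log_rpow (by linarith), ← Nat.cast_ofNat (n := 2)]
    rw [Real.rpow_natCast]
    exact Real.log_le_log (by linarith) (by nlinarith)
  have h4 : (n : ℝ) * Real.log 2 ≤ (K + 3) * Real.log n := by linarith
  have h5 : (n : ℝ) * 0.69 ≤ (K + 3) * Real.log n := le_trans (by nlinarith) h4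
  set t := Real.sqrt n with ht
  have htt : t * t = n := Real.mul_self_sqrt (by linarith)
  have ht0 : 0 < t := Real.sqrt_pos.2 (by linarith)
  have h6 : Real.log n = 2 * Real.log t := by
    rw [← htt, Real.log_mul ht0.ne' ht0.ne']; ring
  have h7 : Real.log t ≤ t := by
    have := Real.log_le_sub_one_of_pos ht0; linarith
  have h8 : t ≤ 3 * (K + 3) := by
    by_contra hcon
    push Not at hcon
    have : t * t * 0.69 ≤ (K + 3) * (2 * t) := by
      rw [htt]
      refine h5.trans ?_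
      rw [h6]
      nlinarith
    nlinarith
  have h9 : Real.log n ≤ 4 * Real.log K := by
    have e1 : Real.log t ≤ Real.log (K * K) := Real.log_le_log ht0 (by nlinarith)
    rw [Real.log_mul (by linarith) (by linarith)] at e1
    rw [h6]; linarith
  have hlK : 0 < Real.log K := Real.log_pos (by linarith)
  have h10 : (n : ℝ) * 0.69 ≤ (K + 3) * (4 * Real.log K) := h5.trans (by nlinarith)
  nlinarith [mul_pos (by linarith : (0:ℝ) < K) hlK, mul_nonneg (by linarith : (0:ℝ) ≤ K - 6) hlK.le]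

theorem two_pow_le_prim (k : ℕ) : 2 ^ k ≤ prim k := by
  unfold prim
  calc 2 ^ k = ∏ i ∈ range k, 2 := by rw [prod_const, card_range]
    _ ≤ _ := prod_le_prod' fun i _ => (nth_prime i).two_le

theorem four_mul_le (k : ℕ) (hk : 4 ≤ k) : 4 * k ≤ 2 ^ k := by
  induction k, hk using Nat.le_induction with
  | base => norm_num
  | succ n hn ih => rw [pow_succ]; omega

theorem claim1 (hSP : SmoothPairs) : ∀ᶠ k : ℕ in atTop,
    ((Nat.nth Nat.Prime k : ℝ) - Nat.nth Nat.Prime (k - 2)) ≤ 4 * Real.log k ^ 2 →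
    (unsettled k : ℝ) ≤ Real.log k ^ 5 / k * prim k := by
  have hl : Tendsto (fun k : ℕ => Real.log k) atTop atTop :=
    Real.tendsto_log_atTop.comp tendsto_natCast_atTop_atTop
  filter_upwards [hl.eventually_ge_atTop 49, eventually_ge_atTop 4] with k h1 h2 hG
  have hA := partA hSP (show 3 ≤ k by omega)
  set q : ℝ := ((Nat.nth Nat.Prime k : ℕ) : ℝ) with hq
  set b : ℝ := ((Nat.nth Nat.Prime (k - 1) : ℕ) : ℝ) with hb
  set a : ℝ := ((Nat.nth Nat.Prime (k - 2) : ℕ) : ℝ) with ha
  set L := Real.log k with hL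
  set P : ℝ := ((prim k : ℕ) : ℝ) with hP
  have hab : a < b := by rw [ha, hb]; exact_mod_cast nth_lt (show k - 2 < k - 1 by omega)
  have hbq : b < q := by rw [hq, hb]; exact_mod_cast nth_lt (show k - 1 < k by omega)
  have hkr : (4 : ℝ) ≤ k := by exact_mod_cast h2
  have hkq : (k : ℝ) ≤ q := by
    rw [hq]; exact_mod_cast (by have := Nat.add_two_le_nth_prime k; omega : k ≤ Nat.nth Nat.Prime k)
  have hPk : 4 * (k : ℝ) ≤ P := by
    rw [hP]; exact_mod_cast (four_mul_le k h2).trans (two_pow_le_prim k)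
  have hP0 : 0 < P := by linarith
  have e1 : ((q - b) * (q - a)) / q ≤ 16 * L ^ 4 / k := by
    have e2 : (q - b) * (q - a) ≤ 16 * L ^ 4 := by
      have : (q - b) * (q - a) ≤ (4 * L ^ 2) * (4 * L ^ 2) :=
        mul_le_mul (by linarith) hG (by linarith) (by positivity)
      calc _ ≤ _ := this
        _ = _ := by ring
    exact div_le_div₀ (by positivity) e2 (by linarith) hkq
  have e3 : 4 * L ^ 2 ≤ L ^ 4 / k * P := by
    have : 4 * L ^ 2 * k ≤ L ^ 4 * P := by
      have e4 : 1 ≤ L ^ 2 := by nlinarith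
      have e5 : L ^ 4 = L ^ 2 * L ^ 2 := by ring
      rw [e5]
      have e6 : 0 ≤ L ^ 2 := by positivity
      calc 4 * L ^ 2 * k = L ^ 2 * 1 * (4 * k) := by ring
        _ ≤ L ^ 2 * L ^ 2 * P := by
            apply mul_le_mul (mul_le_mul_of_nonneg_left e4 e6) hPk (by linarith) (by positivity)
    rw [div_mul_eq_mul_div, le_div_iff₀ (by linarith)]
    exact this
  have e7 : (0 : ℝ) ≤ L ^ 4 / k * P := by positivity
  calc (unsettled k : ℝ) ≤ 3 * ((q - b) * (q - a) / q) * P + (q - a) := hA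
    _ ≤ 3 * (16 * L ^ 4 / k) * P + L ^ 4 / k * P := by
        have := mul_le_mul_of_nonneg_right e1 hP0.le
        linarith
    _ = 49 * (L ^ 4 / k * P) := by ring
    _ ≤ L * (L ^ 4 / k * P) := mul_le_mul_of_nonneg_right h1 e7
    _ = L ^ 5 / k * P := by ring

theorem telescope (n : ℕ) :
    ∑ i ∈ range n, ((Nat.nth Nat.Prime (i + 2) : ℝ) - Nat.nth Nat.Prime i) ≤
      2 * Nat.nth Nat.Prime (n + 1) := by
  have h : ∀ n : ℕ, ∑ i ∈ range n, ((Nat.nth Nat.Prime (i + 2) : ℝ) - Nat.nth Nat.Prime i) =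
      (Nat.nth Nat.Prime (n + 1) : ℝ) + Nat.nth Nat.Prime n - Nat.nth Nat.Prime 1 - Nat.nth Nat.Prime 0 := by
    intro n
    induction n with
    | zero => simp
    | succ m ih => rw [sum_range_succ, ih]; ring
  rw [h]
  have h1 : (Nat.nth Nat.Prime n : ℝ) ≤ Nat.nth Nat.Prime (n + 1) := by
    exact_mod_cast (nth_lt (Nat.lt_succ_self n)).le
  have h2 : (0 : ℝ) ≤ Nat.nth Nat.Prime 1 := Nat.cast_nonneg _
  have h3 : (0 : ℝ) ≤ Nat.nth Nat.Prime 0 := Nat.cast_nonneg _
  linarith

open Classical in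
theorem partB (hSP : SmoothPairs) : Tendsto (fun K : ℕ =>
    (((range K).filter fun k : ℕ => Real.log k ^ 5 / k * prim k < unsettled k).card : ℝ) / K)
    atTop (𝓝 0) := by
  obtain ⟨K1, hK1⟩ := eventually_atTop.1 (claim1 hSP)
  have hl : Tendsto (fun k : ℕ => Real.log k) atTop atTop :=
    Real.tendsto_log_atTop.comp tendsto_natCast_atTop_atTop
  have hup : ∀ᶠ K : ℕ in atTop,
      (((range K).filter fun k : ℕ => Real.log k ^ 5 / k * prim k < unsettled k).card : ℝ) / K ≤
        ((K1 : ℝ) + 3) / K + 1 / Real.sqrt K + 72 / Real.log K := by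
    filter_upwards [eventually_ge_atTop 6] with K hK
    have hKr : (6 : ℝ) ≤ K := by exact_mod_cast hK
    have hLK : 0 < Real.log K := Real.log_pos (by linarith)
    set L := Real.log K with hL
    set T := (range K).filter fun i : ℕ =>
      L ^ 2 < (Nat.nth Nat.Prime (i + 2) : ℝ) - Nat.nth Nat.Prime i with hT
    have hTc : (T.card : ℝ) * L ^ 2 ≤ 2 * Nat.nth Nat.Prime (K + 1) := by
      calc (T.card : ℝ) * L ^ 2 = ∑ i ∈ T, L ^ 2 := by rw [sum_const, nsmul_eq_mul]
        _ ≤ ∑ i ∈ T, ((Nat.nth Nat.Prime (i + 2) : ℝ) - Nat.nth Nat.Prime i) :=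
            sum_le_sum fun i hi => (mem_filter.1 hi).2.le
        _ ≤ ∑ i ∈ range K, ((Nat.nth Nat.Prime (i + 2) : ℝ) - Nat.nth Nat.Prime i) :=
            sum_le_sum_of_subset_of_nonneg (filter_subset _ _) fun i _ _ => by
              have : (Nat.nth Nat.Prime i : ℝ) ≤ Nat.nth Nat.Prime (i + 2) := by
                exact_mod_cast (nth_lt (show i < i + 2 by omega)).le
              linarith
        _ ≤ _ := telescope K
    have hp : (Nat.nth Nat.Prime (K + 1) : ℝ) ≤ 36 * K * L := by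
      have h1 := nth_le (show 6 ≤ K + 1 by omega)
      have h2 : Real.log ((K + 1 : ℕ) : ℝ) ≤ 2 * L := by
        push_cast
        have : Real.log (K * K) = 2 * L := by
          rw [Real.log_mul (by linarith) (by linarith)]; ring
        rw [← this]
        exact Real.log_le_log (by linarith) (by nlinarith)
      refine h1.trans ?_
      push_cast at h2 ⊢
      have h3 : (0 : ℝ) ≤ Real.log ((K : ℝ) + 1) := Real.log_nonneg (by linarith)
      calc 9 * ((K : ℝ) + 1) * Real.log ((K : ℝ) + 1) ≤ 9 * (K + K) * (2 * L) := by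
            apply mul_le_mul (by linarith) h2 h3 (by positivity)
        _ = 36 * K * L := by ring
    have hTc2 : (T.card : ℝ) ≤ 72 * K / L := by
      rw [le_div_iff₀ hLK]
      have : (T.card : ℝ) * L * L ≤ 72 * K * L := by nlinarith
      exact le_of_mul_le_mul_right this hLK
    set M : ℕ := K1 + 2 + ⌈Real.sqrt K⌉₊ with hM
    have hsub : ((range K).filter fun k : ℕ => Real.log k ^ 5 / k * prim k < unsettled k) ⊆
        range M ∪ T.image (fun i => i + 2) := by
      intro k hk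
      rw [mem_filter, mem_range] at hk
      rw [mem_union]
      by_cases hkM : k < M
      · exact Or.inl (mem_range.2 hkM)
      · right
        push Not at hkM
        have h1 := hK1 k (by omega)
        have h2 : ¬ ((Nat.nth Nat.Prime k : ℝ) - Nat.nth Nat.Prime (k - 2)) ≤ 4 * Real.log k ^ 2 :=
          fun h => absurd (h1 h) (not_le.2 hk.2)
        push Not at h2
        rw [mem_image]
        refine ⟨k - 2, ?_, by omega⟩
        rw [hT, mem_filter, mem_range]
        refine ⟨by omega, ?_⟩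
        rw [show k - 2 + 2 = k by omega]
        refine lt_of_le_of_lt ?_ h2
        have h3 : Real.sqrt K ≤ k := (Nat.le_ceil _).trans (by exact_mod_cast (by omega : ⌈Real.sqrt K⌉₊ ≤ k))
        have hs0 : 0 < Real.sqrt K := Real.sqrt_pos.2 (by linarith)
        have h4 : Real.log (Real.sqrt K) ≤ Real.log k := Real.log_le_log hs0 h3
        rw [Real.log_sqrt (by linarith)] at h4
        have h5 : 0 ≤ L / 2 := by positivity
        nlinarith
    have hc : ((((range K).filter fun k : ℕ => Real.log k ^ 5 / k * prim k < unsettled k).card : ℕ) : ℝ) ≤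
        (K1 : ℝ) + 3 + Real.sqrt K + 72 * K / L := by
      have h1 := (card_le_card hsub).trans (card_union_le _ _)
      have h2 : (T.image fun i => i + 2).card ≤ T.card := card_image_le
      rw [card_range] at h1
      have h3 : ((((range K).filter fun k : ℕ => Real.log k ^ 5 / k * prim k < unsettled k).card : ℕ) : ℝ) ≤
          (M : ℝ) + T.card := by exact_mod_cast h1.trans (by omega)
      have h4 : (M : ℝ) ≤ K1 + 3 + Real.sqrt K := by
        rw [hM]; push_cast
        have := Nat.ceil_lt_add_one (Real.sqrt_nonneg (K : ℝ))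
        linarith
      linarith
    rw [div_le_iff₀ (by linarith)]
    refine hc.trans (le_of_eq ?_)
    have hs0 : 0 < Real.sqrt K := Real.sqrt_pos.2 (by linarith)
    have hss : Real.sqrt K * Real.sqrt K = K := Real.mul_self_sqrt (by linarith)
    have e1 : (1 / Real.sqrt K) * K = Real.sqrt K := by
      rw [div_mul_eq_mul_div, one_mul, div_eq_iff hs0.ne', hss]
    have e2 : ((K1 : ℝ) + 3) / K * K = K1 + 3 := div_mul_cancel₀ _ (by linarith)
    rw [add_mul, add_mul, e1, e2]
    ring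
  have hlim : Tendsto (fun K : ℕ => ((K1 : ℝ) + 3) / K + 1 / Real.sqrt K + 72 / Real.log K) atTop (𝓝 0) := by
    have t1 : Tendsto (fun K : ℕ => ((K1 : ℝ) + 3) / K) atTop (𝓝 0) :=
      tendsto_const_nhds.div_atTop tendsto_natCast_atTop_atTop
    have t2 : Tendsto (fun K : ℕ => 1 / Real.sqrt K) atTop (𝓝 0) :=
      tendsto_const_nhds.div_atTop (Real.tendsto_sqrt_atTop.comp tendsto_natCast_atTop_atTop)
    have t3 : Tendsto (fun K : ℕ => 72 / Real.log K) atTop (𝓝 0) := tendsto_const_nhds.div_atTop hl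
    simpa using (t1.add t2).add t3
  exact tendsto_of_tendsto_of_tendsto_of_le_of_le' tendsto_const_nhds hlim
    (Eventually.of_forall fun K => by positivity) hup

end Pool.Agent.H774EP
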