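import Mathlib
import Pool.Agent.H774EP.Core

set_option autoImplicit false

open Finset Filter Topology

namespace Pool.Agent.H774EP

/-- for an unsettled class there is `n` in it with the residue conditions for all primes `≤ p_k` -/
theorem badAll (hSP : SmoothPairs) {k r : ℕ} (hr : ¬ Settled k r) :
    ∃ n : ℕ, n % prim k = r ∧ ∀ p ∈ fp k, ∃ z : ℤ,
      (prim k : ℤ) * (Nat.nth Nat.Prime k * z) < n * p ∧
      (n : ℤ) * p ≤ prim k * (Nat.nth Nat.Prime k * z + (Nat.nth Nat.Prime k - p)) := by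
  obtain ⟨N, hN⟩ := keyK hSP k
  unfold Settled at hr
  push Not at hr
  obtain ⟨n, hn, hnr, hall⟩ := hr N
  refine ⟨n, hnr, fun p hp => ?_⟩
  exact resid (fp_prime hp).pos (dvd_prim hp) (prim_pos k) (nth_prime k).pos (hN n hn hall p hp)

/-- pigeonhole: differences of every size -/
theorem pigeon {S : Finset ℕ} {H N Λ s : ℕ} (hS : ∀ h ∈ S, h ≤ H) (hN : S.card = N)
    (hs : 1 ≤ s) (hsN : 2 * s ≤ N) (hΛ : 2 * H < Λ * N) :
    ∃ h ∈ S, ∃ h' ∈ S, h + s ≤ h' ∧ h' ≤ h + Λ * s := by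
  have hΛ0 : 0 < Λ := by
    rcases Nat.eq_zero_or_pos Λ with h | h
    · subst h; simp at hΛ
    · exact h
  have hB : 0 < Λ * s := Nat.mul_pos hΛ0 hs
  have hmaps : ∀ h ∈ S, h / (Λ * s) ∈ range (H / (Λ * s) + 1) := by
    intro h hh
    rw [mem_range]
    exact Nat.lt_succ_of_le (Nat.div_le_div_right (hS h hh))
  have hlt : (range (H / (Λ * s) + 1)).card * s < S.card := by
    rw [card_range, hN]
    have h1 : H / (Λ * s) * (Λ * s) ≤ H := Nat.div_mul_le_self _ _
    set J := H / (Λ * s) with hJ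
    -- J * s * Λ ≤ H, 2 H < Λ N  → 2 J s < N
    have h2 : 2 * (J * s) < N := by
      by_contra hcon
      push Not at hcon
      have : Λ * N ≤ Λ * (2 * (J * s)) := Nat.mul_le_mul_left _ hcon
      nlinarith
    nlinarith
  obtain ⟨y, _, hy⟩ := exists_lt_card_fiber_of_mul_lt_card_of_maps_to hmaps hlt
  set F := S.filter (fun h => h / (Λ * s) = y) with hF
  have hne : F.Nonempty := card_pos.1 (by omega)
  have h1 := F.min'_mem hne
  have h2 := F.max'_mem hne
  have h3 : F ⊆ Finset.Icc (F.min' hne) (F.max' hne) := fun x hx =>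
    mem_Icc.2 ⟨F.min'_le x hx, F.le_max' x hx⟩
  have h4 := card_le_card h3
  rw [Nat.card_Icc] at h4
  have h5 := mem_filter.1 h1
  have h6 := mem_filter.1 h2
  refine ⟨_, h5.1, _, h6.1, by omega, ?_⟩
  have e1 := Nat.div_add_mod (F.min' hne) (Λ * s)
  have e2 := Nat.div_add_mod (F.max' hne) (Λ * s)
  rw [h5.2] at e1
  rw [h6.2] at e2
  have e3 := Nat.mod_lt (F.max' hne) hB
  omega

/-- a number all of whose multiples by suitable `m` are near integers is near a rational number -/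
theorem approx {γ ε : ℝ} {Λ N' : ℕ} (hε : 0 ≤ ε) (hN' : 1 ≤ N')
    (h : ∀ s : ℕ, 1 ≤ s → s ≤ N' → ∃ (m : ℕ) (y : ℤ), s ≤ m ∧ m ≤ Λ * s ∧ |γ * m - y| ≤ ε)
    (hsm : ε * Λ * (2 * Λ + 1) < 1) :
    ∃ (a : ℤ) (d : ℕ), 1 ≤ d ∧ d ≤ Λ ∧ |γ - a / d| ≤ ε / N' := by
  obtain ⟨m1, y1, h1, h2, h3⟩ := h 1 le_rfl hN'
  rw [mul_one] at h2
  have hm1 : (1 : ℝ) ≤ m1 := by exact_mod_cast h1
  have hm1Λ : (m1 : ℝ) ≤ Λ := by exact_mod_cast h2
  refine ⟨y1, m1, h1, h2, ?_⟩
  have key : ∀ s : ℕ, 1 ≤ s → s ≤ N' → |γ - y1 / m1| ≤ ε / s := by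
    intro s hs
    induction s, hs using Nat.le_induction with
    | base =>
      intro _
      have e : γ - y1 / m1 = (γ * m1 - y1) / m1 := by field_simp
      rw [e, abs_div, abs_of_pos (by linarith : (0 : ℝ) < m1)]
      push_cast
      exact div_le_div₀ hε h3 one_pos hm1
    | succ s hs ih =>
      intro hsN
      have ih := ih (by omega)
      obtain ⟨m, y, g1, g2, g3⟩ := h (s + 1) (by omega) hsN
      have hsr : (1 : ℝ) ≤ s := by exact_mod_cast hs
      have hmr : (s : ℝ) + 1 ≤ m := by exact_mod_cast g1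
      have hmr2 : (m : ℝ) ≤ Λ * (s + 1) := by exact_mod_cast g2
      have hm0 : (0 : ℝ) < m := by linarith
      have hΛ0 : (0 : ℝ) ≤ Λ := Nat.cast_nonneg _
      -- the integer m * y1 - m1 * y vanishes
      have e1 : ((m * y1 - m1 * y : ℤ) : ℝ) = m1 * ((γ * m - y) - m * (γ - y1 / m1)) := by
        push_cast; field_simp; ring
      have e2 : |((m * y1 - m1 * y : ℤ) : ℝ)| < 1 := by
        rw [e1, abs_mul, abs_of_pos (by linarith : (0 : ℝ) < m1)]
        have e3 : |(γ * m - y) - m * (γ - y1 / m1)| ≤ ε + m * (ε / s) := by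
          refine (abs_sub _ _).trans ?_
          rw [abs_mul, abs_of_pos hm0]
          exact add_le_add g3 (mul_le_mul_of_nonneg_left ih hm0.le)
        have e4 : (m : ℝ) * (ε / s) ≤ 2 * Λ * ε := by
          rw [mul_div_assoc', div_le_iff₀ (by linarith)]
          calc (m : ℝ) * ε ≤ (Λ * (s + 1)) * ε := mul_le_mul_of_nonneg_right hmr2 hε
            _ ≤ (Λ * (2 * s)) * ε := by
                apply mul_le_mul_of_nonneg_right _ hε
                exact mul_le_mul_of_nonneg_left (by linarith) hΛ0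
            _ = 2 * Λ * ε * s := by ring
        calc (m1 : ℝ) * |(γ * m - y) - m * (γ - y1 / m1)| ≤ Λ * (ε + 2 * Λ * ε) := by
              apply mul_le_mul hm1Λ (e3.trans (by linarith)) (abs_nonneg _) hΛ0
          _ = ε * Λ * (2 * Λ + 1) := by ring
          _ < 1 := hsm
      have e5 : (m * y1 - m1 * y : ℤ) = 0 := by
        have : |(m * y1 - m1 * y : ℤ)| < 1 := by exact_mod_cast e2
        exact Int.abs_lt_one_iff.1 this
      have e6 : (m : ℝ) * y1 = m1 * y := by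
        have : ((m * y1 - m1 * y : ℤ) : ℝ) = 0 := by rw [e5]; simp
        push_cast at this
        linarith
      have e7 : γ - y1 / m1 = (γ * m - y) / m := by
        have : (y1 : ℝ) / m1 = y / m := by
          rw [div_eq_div_iff (by linarith) hm0.ne']; linarith
        rw [this]; field_simp
      rw [e7, abs_div, abs_of_pos hm0]
      push_cast
      exact div_le_div₀ hε g3 (by linarith) hmr
  exact key N' hN' le_rfl

theorem mem_fp_of_lt {k p : ℕ} (hp : p.Prime) (h : p < Nat.nth Nat.Prime k) : p ∈ fp k := by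
  have h1 : Nat.nth Nat.Prime (Nat.count Nat.Prime p) = p := Nat.nth_count hp
  have h2 : Nat.count Nat.Prime p < k := by
    by_contra hcon
    push Not at hcon
    have : Nat.nth Nat.Prime k ≤ Nat.nth Nat.Prime (Nat.count Nat.Prime p) :=
      (Nat.nth_monotone Nat.infinite_setOfPred_prime) hcon
    omega
  rw [← h1]
  exact mem_fp h2

/-- all primes of `(q - 1 - H, q - 1]` used together -/
theorem nearRat (hSP : SmoothPairs) {k r H N Λ : ℕ} (hr : ¬ Settled k r) (hk : 1 ≤ k)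
    (hHq : H < Nat.nth Nat.Prime k)
    (hN : ((Finset.Ioc (Nat.nth Nat.Prime k - 1 - H) (Nat.nth Nat.Prime k - 1)).filter Nat.Prime).card = N)
    (hN2 : 2 ≤ N) (hΛ : 2 * H < Λ * N)
    (hsm : ((H : ℝ) / Nat.nth Nat.Prime k) * Λ * (2 * Λ + 1) < 1) :
    ∃ (c : ℤ) (d : ℕ), 1 ≤ d ∧ d ≤ Λ ∧ |(r : ℝ) / prim k - c / d| ≤
      ((Nat.nth Nat.Prime k : ℝ) - Nat.nth Nat.Prime (k - 1)) / Nat.nth Nat.Prime k *
        (H / (N / 2 : ℕ) + 1) := by
  obtain ⟨n, hnr, hall⟩ := badAll hSP hr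
  set q := Nat.nth Nat.Prime k with hq
  set P := prim k with hP
  have hqp : q.Prime := nth_prime k
  have hq0 : (0 : ℝ) < q := by exact_mod_cast hqp.pos
  have hP0 : (0 : ℝ) < P := by exact_mod_cast prim_pos k
  set γ : ℝ := (n : ℝ) / P / q with hγ
  set S := ((Finset.Ioc (q - 1 - H) (q - 1)).filter Nat.Prime).image fun p => q - p with hS
  have hmemS : ∀ h ∈ S, 1 ≤ h ∧ h ≤ H ∧ ∃ z : ℤ, (P : ℤ) * (q * z) < n * ((q : ℤ) - h) ∧
      (n : ℤ) * ((q : ℤ) - h) ≤ P * (q * z + h) := by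
    intro h hh
    obtain ⟨p, hp, rfl⟩ := mem_image.1 hh
    have hp' := mem_filter.1 hp
    have hpI := mem_Ioc.1 hp'.1
    have h2 := hqp.two_le
    obtain ⟨z, hz1, hz2⟩ := hall p (mem_fp_of_lt hp'.2 (by omega))
    refine ⟨by omega, by omega, z, ?_, ?_⟩
    · have : ((q - p : ℕ) : ℤ) = q - p := by push_cast [Nat.cast_sub (show p ≤ q by omega)]; ring
      rw [this]; linarith [hz1, show (n : ℤ) * (q - (q - p)) = n * p by ring]
    · have : ((q - p : ℕ) : ℤ) = q - p := by push_cast [Nat.cast_sub (show p ≤ q by omega)]; ring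
      rw [this]; linarith [hz2, show (n : ℤ) * (q - (q - p)) = n * p by ring]
  have hScard : S.card = N := by
    rw [hS, card_image_of_injOn, hN]
    intro x hx y hy hxy
    have hx' := mem_Ioc.1 (mem_filter.1 (mem_coe.1 hx)).1
    have hy' := mem_Ioc.1 (mem_filter.1 (mem_coe.1 hy)).1
    simp only at hxy
    omega
  -- real form of the conditions: `n / P = γ h + z + η / q`
  have hreal : ∀ h ∈ S, ∃ (z : ℤ) (η : ℝ), 0 < η ∧ η ≤ h ∧ (n : ℝ) / P = γ * h + z + η / q := by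
    intro h hh
    obtain ⟨_, _, z, hz1, hz2⟩ := hmemS h hh
    have g1 : (P : ℝ) * (q * z) < n * ((q : ℝ) - h) := by exact_mod_cast hz1
    have g2 : (n : ℝ) * ((q : ℝ) - h) ≤ P * (q * z + h) := by exact_mod_cast hz2
    refine ⟨z, (n : ℝ) * ((q : ℝ) - h) / P - q * z, ?_, ?_, ?_⟩
    · rw [sub_pos, lt_div_iff₀ hP0]; linarith
    · rw [sub_le_iff_le_add, div_le_iff₀ hP0]; linarith
    · rw [hγ]; field_simp; ring
  have hH0 : (0 : ℝ) ≤ H := Nat.cast_nonneg _
  obtain ⟨a, d, hd1, hd2, hγd⟩ := approx (γ := γ) (ε := (H : ℝ) / q) (Λ := Λ) (N' := N / 2)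
    (by positivity) (by omega) (by
      intro s hs1 hs2
      obtain ⟨h, hh, h', hh', g1, g2⟩ := pigeon (fun h hh => (hmemS h hh).2.1) hScard hs1 (by omega) hΛ
      obtain ⟨z, η, e1, e2, e3⟩ := hreal h hh
      obtain ⟨z', η', e1', e2', e3'⟩ := hreal h' hh'
      refine ⟨h' - h, z - z', by omega, by omega, ?_⟩
      have g3 : ((h' - h : ℕ) : ℝ) = h' - h := by push_cast [Nat.cast_sub (show h ≤ h' by omega)]; ring
      have g4 : γ * ((h' - h : ℕ) : ℝ) - ((z - z' : ℤ) : ℝ) = (η - η') / q := by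
        rw [g3]; push_cast; rw [sub_div]; linarith
      rw [g4, abs_div, abs_of_pos hq0]
      apply div_le_div_of_nonneg_right _ hq0.le
      have b1 : (h : ℝ) ≤ H := by exact_mod_cast (hmemS h hh).2.1
      have b2 : (h' : ℝ) ≤ H := by exact_mod_cast (hmemS h' hh').2.1
      rw [abs_le]
      constructor <;> linarith) hsm
  obtain ⟨h, hh, hhg⟩ : ∃ h ∈ S, (h : ℝ) = (q : ℝ) - Nat.nth Nat.Prime (k - 1) := by
    obtain ⟨h', hh'⟩ : S.Nonempty := card_pos.1 (by omega)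
    obtain ⟨p, hp, rfl⟩ := mem_image.1 hh'
    have hp' := mem_filter.1 hp
    have hpI := mem_Ioc.1 hp'.1
    have h2 := hqp.two_le
    have hpk := mem_fp_of_lt (k := k) hp'.2 (by omega)
    unfold fp at hpk
    obtain ⟨i, hi, hip⟩ := mem_image.1 hpk
    rw [mem_range] at hi
    have h3 : Nat.nth Nat.Prime i ≤ Nat.nth Nat.Prime (k - 1) :=
      (Nat.nth_monotone Nat.infinite_setOfPred_prime) (by omega)
    have h4 : Nat.nth Nat.Prime (k - 1) < q := nth_lt (by omega)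
    refine ⟨q - Nat.nth Nat.Prime (k - 1), mem_image.2 ⟨Nat.nth Nat.Prime (k - 1),
      mem_filter.2 ⟨mem_Ioc.2 ⟨by omega, by omega⟩, nth_prime _⟩, rfl⟩, ?_⟩
    push_cast [Nat.cast_sub h4.le]
    ring
  obtain ⟨z, η, e1, e2, e3⟩ := hreal h hh
  have hd0 : (0 : ℝ) < d := by exact_mod_cast hd1
  obtain ⟨Q, hn⟩ : ∃ Q : ℕ, (n : ℝ) = P * (Q : ℝ) + r := by
    refine ⟨n / P, ?_⟩
    rw [← hnr]; exact_mod_cast (Nat.div_add_mod n P).symm
  refine ⟨(z - Q) * d + a * h, d, hd1, hd2, ?_⟩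
  have h5 : (r : ℝ) / P - (((z - Q) * d + a * h : ℤ) : ℝ) / d =
      (γ - a / d) * h + η / q := by
    have e4 : (n : ℝ) / P = (Q : ℝ) + r / P := by
      rw [hn]; field_simp
    have e5 : (((z - Q) * d + a * h : ℤ) : ℝ) / d = z - (Q : ℝ) + a / d * h := by
      push_cast; field_simp
    rw [e5]
    linarith
  rw [h5]
  have hN2' : (0 : ℝ) < (N / 2 : ℕ) := by exact_mod_cast (by omega : 0 < N / 2)
  rw [← hhg]
  have hh0 : (0 : ℝ) ≤ h := Nat.cast_nonneg h
  calc |(γ - a / d) * h + η / q| ≤ |(γ - a / d) * h| + |η / q| := abs_add_le _ _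
    _ ≤ ((H : ℝ) / q / (N / 2 : ℕ)) * h + h / q := by
        apply add_le_add
        · rw [abs_mul, abs_of_nonneg hh0]
          exact mul_le_mul_of_nonneg_right hγd hh0
        · rw [abs_of_pos (by positivity)]
          exact div_le_div_of_nonneg_right (by linarith) hq0.le
    _ = (h : ℝ) / q * (H / (N / 2 : ℕ) + 1) := by field_simp

open Classical in
theorem countRat {P Λ : ℕ} {κ : ℝ} (hP : 0 < P) (hκ : 0 < κ) (hκΛ : κ * Λ < 1) :
    (((range P).filter fun r : ℕ => ∃ (c : ℤ) (d : ℕ), 1 ≤ d ∧ d ≤ Λ ∧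
      |(r : ℝ) / P - c / d| ≤ κ).card : ℝ) ≤ Λ * (Λ + 1) * (4 * κ * P + 1) := by
  have hPr : (0 : ℝ) < P := by exact_mod_cast hP
  have hsub : ((range P).filter fun r : ℕ => ∃ (c : ℤ) (d : ℕ), 1 ≤ d ∧ d ≤ Λ ∧
      |(r : ℝ) / P - c / d| ≤ κ) ⊆ (Finset.Icc 1 Λ ×ˢ range (Λ + 1)).biUnion fun x =>
        (range P).filter fun r : ℕ => |(r : ℝ) * x.1 - P * x.2| < 2 * κ * P * x.1 := by
    intro r hr
    rw [mem_filter] at hr
    obtain ⟨hr, c, d, hd1, hd2, hc⟩ := hr
    have hrP : (r : ℝ) < P := by exact_mod_cast mem_range.1 hr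
    have hr0 : (0 : ℝ) ≤ r := Nat.cast_nonneg r
    have hd : (0 : ℝ) < d := by exact_mod_cast hd1
    have hdΛ : (d : ℝ) ≤ Λ := by exact_mod_cast hd2
    have h1 : |(r : ℝ) * d - P * c| ≤ κ * P * d := by
      have e : (r : ℝ) * d - P * c = ((r : ℝ) / P - c / d) * (P * d) := by field_simp
      rw [e, abs_mul, abs_of_pos (by positivity : (0 : ℝ) < P * d)]
      calc _ ≤ κ * (P * d) := mul_le_mul_of_nonneg_right hc (by positivity)
        _ = κ * P * d := by ring
    have h2 : κ * P * d < P := by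
      have : κ * d < 1 := lt_of_le_of_lt (mul_le_mul_of_nonneg_left hdΛ hκ.le) hκΛ
      nlinarith
    have h3 := abs_le.1 h1
    have hc0 : (-1 : ℝ) < c := by
      by_contra hcon
      push Not at hcon
      nlinarith [mul_nonneg hr0 hd.le]
    have hc1 : (c : ℝ) < d + 1 := by
      by_contra hcon
      push Not at hcon
      nlinarith
    have hc0' : -1 < c := by exact_mod_cast hc0
    have hc1' : c < d + 1 := by exact_mod_cast hc1
    obtain ⟨y, rfl⟩ := Int.eq_ofNat_of_zero_le (show 0 ≤ c by omega)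
    rw [mem_biUnion]
    refine ⟨(d, y), mem_product.2 ⟨mem_Icc.2 ⟨hd1, hd2⟩, mem_range.2 (by omega)⟩, mem_filter.2 ⟨hr, ?_⟩⟩
    have h4 : 0 < κ * P * d := by positivity
    simp only [Int.cast_natCast] at h1
    exact lt_of_le_of_lt h1 (by linarith)
  have h1 := card_le_card hsub
  have h2 := h1.trans card_biUnion_le
  have h3 : ((∑ x ∈ Finset.Icc 1 Λ ×ˢ range (Λ + 1),
      ((range P).filter fun r : ℕ => |(r : ℝ) * x.1 - P * x.2| < 2 * κ * P * x.1).card : ℕ) : ℝ)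
      ≤ ∑ x ∈ Finset.Icc 1 Λ ×ˢ range (Λ + 1), (4 * κ * P + 1) := by
    rw [Nat.cast_sum]
    refine sum_le_sum fun x hx => ?_
    have hx1 : (0 : ℝ) < x.1 := by exact_mod_cast (mem_Icc.1 (mem_product.1 hx).1).1
    have := card_near (S := (range P).filter fun r : ℕ => |(r : ℝ) * x.1 - P * x.2| < 2 * κ * P * x.1)
      hx1 (by positivity) fun r hr => (mem_filter.1 hr).2
    refine this.trans (le_of_eq ?_)
    field_simp
    ring
  rw [sum_const, card_product, card_range, Nat.card_Icc, nsmul_eq_mul] at h3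
  refine (show _ ≤ _ from by exact_mod_cast h2).trans (h3.trans (le_of_eq ?_))
  push_cast
  ring

end Pool.Agent.H774EP
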