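import Mathlib
import Pool.Agent.H774EP.Rat
import Pool.Agent.H295R3.Hoheisel

set_option autoImplicit false

open Finset Filter Topology

namespace Pool.Agent.H774EP

/-- the analytic conditions on `y = p_{k+1}` -/
theorem evCond (δ η C1 C2 : ℝ) (X0 : ℕ) (hδ : 0 < δ) (hδ1 : δ < 1) (hη : 0 < η)
    :
    ∀ᶠ y : ℝ in atTop, 6 * C1 ^ 2 * Real.log y ^ 2 < y ^ δ ∧ 4 * C1 * C2 * Real.log y ^ 2 < y ^ δ ∧
      2 * Real.log y ≤ η * y ^ (1 - δ) ∧ 1 ≤ Real.log y ∧ (X0 : ℝ) * 4 + 100 ≤ y := by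
  have h1 : ∀ C : ℝ, ∀ᶠ y : ℝ in atTop, C * Real.log y ^ 2 < y ^ δ := by
    intro C
    have h := (isLittleO_log_rpow_rpow_atTop (2 : ℝ) hδ).bound (show (0 : ℝ) < 1 / (2 * (|C| + 1)) by positivity)
    filter_upwards [h, eventually_gt_atTop 1] with y hy hy1
    have hl : 0 < Real.log y := Real.log_pos hy1
    have hp : 0 < y ^ δ := by positivity
    rw [Real.norm_of_nonneg (by positivity), Real.norm_of_nonneg hp.le] at hy
    have e : Real.log y ^ (2 : ℝ) = Real.log y ^ 2 := by norm_cast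
    rw [e] at hy
    have h3 : C * Real.log y ^ 2 ≤ (|C| + 1) * (1 / (2 * (|C| + 1)) * y ^ δ) := by
      apply mul_le_mul (by linarith [le_abs_self C]) hy (by positivity) (by positivity)
    have h4 : (|C| + 1) * (1 / (2 * (|C| + 1)) * y ^ δ) = y ^ δ / 2 := by field_simp
    linarith
  have h2 : ∀ᶠ y : ℝ in atTop, 2 * Real.log y ≤ η * y ^ (1 - δ) := by
    have h := (isLittleO_log_rpow_atTop (show (0 : ℝ) < 1 - δ by linarith)).bound
      (show (0 : ℝ) < η / 2 by positivity)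
    filter_upwards [h, eventually_gt_atTop 1] with y hy hy1
    have hl : 0 < Real.log y := Real.log_pos hy1
    have hp : 0 < y ^ (1 - δ) := by positivity
    rw [Real.norm_of_nonneg hl.le, Real.norm_of_nonneg hp.le] at hy
    linarith
  filter_upwards [h1 (6 * C1 ^ 2), h1 (4 * C1 * C2), h2,
    Real.tendsto_log_atTop.eventually_ge_atTop 1, eventually_ge_atTop ((X0 : ℝ) * 4 + 100)] with y a b c d e
  exact ⟨a, b, c, d, e⟩

open Classical in
theorem large (hSP : SmoothPairs) (hHo : Pool.Agent.H469R10.HO.Hoheisel) :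
    ∃ C : ℝ, 0 < C ∧ ∀ᶠ k : ℕ in atTop, (unsettled k : ℝ) ≤ C * Real.log k ^ 3 *
      (((Nat.nth Nat.Prime k : ℝ) - Nat.nth Nat.Prime (k - 1)) / Nat.nth Nat.Prime k) * prim k := by
  obtain ⟨δ, η, hδ, hδ1, hη, X0, hX0, hHo⟩ := hHo
  set C1 : ℝ := 2 / η + 1 with hC1
  set C2 : ℝ := 3 / η + 1 with hC2
  have hC1' : 1 ≤ C1 := by rw [hC1]; have : 0 < 2 / η := by positivity
                           linarith
  have hC2' : 1 ≤ C2 := by rw [hC2]; have : 0 < 3 / η := by positivity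
                           linarith
  refine ⟨2 * C1 ^ 2 * (4 * C2 + 1) * 64, by positivity, ?_⟩
  have hnt : Tendsto (fun k : ℕ => (Nat.nth Nat.Prime k : ℝ)) atTop atTop :=
    tendsto_natCast_atTop_atTop.comp (Nat.nth_strictMono Nat.infinite_setOfPred_prime).tendsto_atTop
  have hpow : ∀ k : ℕ, 12 ≤ k → 9 * k * k ≤ 2 ^ k := by
    intro k hk
    induction k, hk using Nat.le_induction with
    | base => norm_num
    | succ n hn ih => rw [pow_succ]; nlinarith
  filter_upwards [hnt.eventually (evCond δ η C1 C2 X0 hδ hδ1 hη), eventually_ge_atTop 12]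
    with k hk hk12
  obtain ⟨c1, c2, c3, c4, c5⟩ := hk
  set q := Nat.nth Nat.Prime k with hq
  set P := prim k with hP
  have hqp : q.Prime := nth_prime k
  have hkr : (12 : ℝ) ≤ k := by exact_mod_cast hk12
  have hX0' : (0 : ℝ) ≤ X0 := Nat.cast_nonneg _
  have hq0 : (0 : ℝ) < q := by linarith
  have hq1 : (1 : ℝ) < q := by linarith
  set L := Real.log q with hL
  have hL0 : 0 < L := by linarith
  have hP0 : (0 : ℝ) < P := by exact_mod_cast prim_pos k
  -- `q ≤ P`, `L ≤ 4 log k`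
  have hlk : 1 ≤ Real.log k := by
    rw [Real.le_log_iff_exp_le (by linarith)]
    linarith [Real.exp_one_lt_d9]
  have hlk2 : Real.log k ≤ k := by
    have := Real.log_le_sub_one_of_pos (show (0 : ℝ) < k by linarith); linarith
  have hqk : (q : ℝ) ≤ 9 * k * k := (nth_le (by omega)).trans
    (mul_le_mul_of_nonneg_left hlk2 (by positivity))
  have hqP : (q : ℝ) ≤ P := by
    refine hqk.trans ?_
    exact_mod_cast (hpow k hk12).trans (two_pow_le_prim k)
  have hL4 : L ≤ 4 * Real.log k := by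
    have h1 : L ≤ Real.log ((k * k) * (k * k)) := by
      apply Real.log_le_log hq0
      refine hqk.trans ?_
      have : (9 : ℝ) ≤ k * k := by nlinarith
      have h3 : (0 : ℝ) ≤ k * k := by positivity
      nlinarith
    rw [Real.log_mul (by positivity) (by positivity), Real.log_mul (by positivity) (by positivity)] at h1
    linarith
  -- the length
  set H : ℕ := ⌈(q : ℝ) ^ (1 - δ)⌉₊ with hH
  have hqd : (q : ℝ) ^ (1 - δ) = q / (q : ℝ) ^ δ := by
    rw [Real.rpow_sub hq0, Real.rpow_one]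
  have hqd0 : 0 < (q : ℝ) ^ δ := by positivity
  have hq1d : 1 ≤ (q : ℝ) ^ (1 - δ) := Real.one_le_rpow hq1.le (by linarith)
  have hH1 : (q : ℝ) ^ (1 - δ) ≤ H := Nat.le_ceil _
  have hH2 : (H : ℝ) ≤ 2 * (q : ℝ) ^ (1 - δ) := by
    have := Nat.ceil_lt_add_one (show 0 ≤ (q : ℝ) ^ (1 - δ) by positivity)
    linarith
  have hH3 : (H : ℝ) / q * (q : ℝ) ^ δ ≤ 2 := by
    rw [div_mul_eq_mul_div, div_le_iff₀ hq0]
    calc (H : ℝ) * (q : ℝ) ^ δ ≤ 2 * (q / (q : ℝ) ^ δ) * (q : ℝ) ^ δ := by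
          rw [← hqd]; exact mul_le_mul_of_nonneg_right hH2 hqd0.le
      _ = 2 * q := by field_simp
  have hqd6 : 6 ≤ (q : ℝ) ^ δ := by nlinarith [mul_self_nonneg (C1 - 1), mul_self_nonneg (L - 1)]
  have hHq : (H : ℝ) ≤ q / 3 := by
    have : (q : ℝ) ^ (1 - δ) ≤ q / 6 := by
      rw [hqd]; exact div_le_div_of_nonneg_left hq0.le (by norm_num) hqd6
    linarith
  have hHqn : 3 * H ≤ q := by
    have : (3 : ℝ) * H ≤ q := by linarith
    exact_mod_cast this
  have hq100 : 4 * X0 + 100 ≤ q := by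
    have : (4 : ℝ) * X0 + 100 ≤ q := by linarith
    exact_mod_cast this
  set X := q - 1 - H with hX
  have hXH : X + H = q - 1 := by omega
  have hho := hHo X H (by omega) (by
    calc (X : ℝ) ^ (1 - δ) ≤ (q : ℝ) ^ (1 - δ) :=
          Real.rpow_le_rpow (by positivity) (by exact_mod_cast (by omega : X ≤ q)) (by linarith)
      _ ≤ H := hH1) (by omega)
  rw [hXH] at hho
  set N := ((Finset.Ioc X (q - 1)).filter Nat.Prime).card with hN
  have hXr : (1 : ℝ) < X := by exact_mod_cast (by omega : 1 < X)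
  have hlX : 0 < Real.log X := Real.log_pos hXr
  have hlXL : Real.log X ≤ L := Real.log_le_log (by linarith) (by exact_mod_cast (by omega : X ≤ q))
  have hHr0 : (0 : ℝ) < H := by linarith
  have hNL : η * H ≤ N * L := by
    rw [div_le_iff₀ hlX] at hho
    exact hho.trans (mul_le_mul_of_nonneg_left hlXL (Nat.cast_nonneg _))
  have hN2r : (2 : ℝ) ≤ N := by
    have : 2 * L ≤ N * L := by
      refine c3.trans (le_trans ?_ hNL)
      exact mul_le_mul_of_nonneg_left hH1 hη.le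
    exact le_of_mul_le_mul_right this hL0
  have hN2 : 2 ≤ N := by exact_mod_cast hN2r
  have hHN : (H : ℝ) / N ≤ L / η := by
    rw [div_le_div_iff₀ (by linarith) hη]; linarith
  set Λ := 2 * H / N + 1 with hΛ
  have hΛN : 2 * H < Λ * N := by
    have e1 := Nat.div_add_mod (2 * H) N
    have e2 := Nat.mod_lt (2 * H) (show 0 < N by omega)
    rw [hΛ, add_mul, one_mul, mul_comm (2 * H / N) N]
    omega
  have hΛr : (Λ : ℝ) ≤ C1 * L := by
    have e1 : ((2 * H / N : ℕ) : ℝ) ≤ (2 * H : ℕ) / (N : ℝ) := Nat.cast_div_le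
    rw [hΛ]
    push_cast at e1 ⊢
    have e2 : 2 * (H : ℝ) / N = 2 * (H / N) := by ring
    rw [e2] at e1
    have e3 : C1 * L = 2 * (L / η) + L := by rw [hC1]; ring
    rw [e3]
    linarith
  have hΛ1n : 1 ≤ Λ := by rw [hΛ]; exact Nat.le_add_left 1 _
  have hΛ1 : (1 : ℝ) ≤ Λ := by exact_mod_cast hΛ1n
  have hsm : ((H : ℝ) / q) * Λ * (2 * Λ + 1) < 1 := by
    have e1 : (Λ : ℝ) * (2 * Λ + 1) ≤ 3 * (C1 * L) ^ 2 := by nlinarith
    have e2 : (H : ℝ) / q * (3 * (C1 * L) ^ 2) < 1 := by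
      have e3 : (H : ℝ) / q ≤ 2 / (q : ℝ) ^ δ := by rw [le_div_iff₀ hqd0]; exact hH3
      have e4 : 0 ≤ 3 * (C1 * L) ^ 2 := by positivity
      refine lt_of_le_of_lt (mul_le_mul_of_nonneg_right e3 e4) ?_
      rw [div_mul_eq_mul_div, div_lt_one hqd0]
      calc 2 * (3 * (C1 * L) ^ 2) = 6 * C1 ^ 2 * L ^ 2 := by ring
        _ < _ := c1
    have e5 : 0 ≤ (H : ℝ) / q := by positivity
    calc ((H : ℝ) / q) * Λ * (2 * Λ + 1) = (H : ℝ) / q * (Λ * (2 * Λ + 1)) := by ring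
      _ ≤ (H : ℝ) / q * (3 * (C1 * L) ^ 2) := mul_le_mul_of_nonneg_left e1 e5
      _ < 1 := e2
  -- the gap
  set g : ℝ := (q : ℝ) - Nat.nth Nat.Prime (k - 1) with hg
  have hg1 : 1 ≤ g := by
    have : Nat.nth Nat.Prime (k - 1) < q := nth_lt (by omega)
    have : (Nat.nth Nat.Prime (k - 1) : ℝ) + 1 ≤ q := by exact_mod_cast this
    linarith
  have hgH : g ≤ H := by
    obtain ⟨p, hp⟩ : ((Finset.Ioc X (q - 1)).filter Nat.Prime).Nonempty := card_pos.1 (by omega)
    have hp' := mem_filter.1 hp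
    have hpI := mem_Ioc.1 hp'.1
    have hpk := mem_fp_of_lt (k := k) hp'.2 (by omega)
    unfold fp at hpk
    obtain ⟨i, hi, hip⟩ := mem_image.1 hpk
    rw [mem_range] at hi
    have h3 : Nat.nth Nat.Prime i ≤ Nat.nth Nat.Prime (k - 1) :=
      (Nat.nth_monotone Nat.infinite_setOfPred_prime) (by omega)
    have h4 : (q : ℝ) ≤ Nat.nth Nat.Prime (k - 1) + H := by
      exact_mod_cast (by omega : q ≤ Nat.nth Nat.Prime (k - 1) + H)
    linarith
  set κ : ℝ := g / q * (H / (N / 2 : ℕ) + 1) with hκ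
  have hN2' : (N : ℝ) / 3 ≤ (N / 2 : ℕ) := by
    rw [div_le_iff₀ (by norm_num)]
    exact_mod_cast (by omega : N ≤ N / 2 * 3)
  have hN0 : (0 : ℝ) < N := by linarith
  have hκ0 : 0 < κ := by
    have : (0 : ℝ) < (N / 2 : ℕ) := by linarith
    positivity
  have hκ1 : κ ≤ C2 * L * (g / q) := by
    have e1 : (H : ℝ) / (N / 2 : ℕ) ≤ 3 * (L / η) := by
      calc (H : ℝ) / (N / 2 : ℕ) ≤ H / (N / 3) := div_le_div_of_nonneg_left hHr0.le (by positivity) hN2'
        _ = 3 * (H / N) := by field_simp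
        _ ≤ 3 * (L / η) := by linarith
    have e2 : (H : ℝ) / (N / 2 : ℕ) + 1 ≤ C2 * L := by
      have e3 : C2 * L = 3 * (L / η) + L := by rw [hC2]; ring
      rw [e3]; linarith
    have e4 : 0 ≤ g / q := by positivity
    calc κ ≤ g / q * (C2 * L) := mul_le_mul_of_nonneg_left e2 e4
      _ = _ := by ring
  have hκΛ : κ * Λ < 1 := by
    have e1 : κ * Λ ≤ C2 * L * (H / q) * (C1 * L) := by
      apply mul_le_mul (hκ1.trans _) hΛr (by linarith) (by positivity)
      apply mul_le_mul_of_nonneg_left _ (by positivity)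
      exact div_le_div_of_nonneg_right hgH hq0.le
    have e3 : (H : ℝ) / q ≤ 2 / (q : ℝ) ^ δ := by rw [le_div_iff₀ hqd0]; exact hH3
    have e4 : C2 * L * (H / q) * (C1 * L) ≤ 2 / (q : ℝ) ^ δ * (C1 * C2 * L ^ 2) := by
      calc C2 * L * (H / q) * (C1 * L) = (H / q) * (C1 * C2 * L ^ 2) := by ring
        _ ≤ _ := mul_le_mul_of_nonneg_right e3 (by positivity)
    have e5 : 2 / (q : ℝ) ^ δ * (C1 * C2 * L ^ 2) < 1 := by
      rw [div_mul_eq_mul_div, div_lt_one hqd0]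
      have : 0 ≤ C1 * C2 * L ^ 2 := by positivity
      linarith
    linarith
  have hsub : ((range P).filter fun r => ¬ Settled k r) ⊆ (range P).filter fun r : ℕ =>
      ∃ (c : ℤ) (d : ℕ), 1 ≤ d ∧ d ≤ Λ ∧ |(r : ℝ) / P - c / d| ≤ κ := by
    intro r hr
    rw [mem_filter] at hr ⊢
    refine ⟨hr.1, ?_⟩
    exact nearRat hSP hr.2 (by omega) (by omega) rfl hN2 hΛN hsm
  have h1 : (unsettled k : ℝ) ≤ Λ * (Λ + 1) * (4 * κ * P + 1) :=
    le_trans (by exact_mod_cast card_le_card hsub) (countRat (prim_pos k) hκ0 hκΛ)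
  have h2 : 4 * κ * P + 1 ≤ (4 * C2 + 1) * L * (g / q) * P := by
    have e1 : 1 ≤ g / q * P := by
      rw [div_mul_eq_mul_div, le_div_iff₀ hq0, one_mul]
      nlinarith
    have e2 : κ * P ≤ C2 * L * (g / q) * P := mul_le_mul_of_nonneg_right hκ1 hP0.le
    have e3 : g / q * P ≤ L * (g / q * P) := by nlinarith
    calc 4 * κ * P + 1 ≤ 4 * (C2 * L * (g / q) * P) + L * (g / q * P) := by linarith
      _ = (4 * C2 + 1) * L * (g / q) * P := by ring
  have h3 : (Λ : ℝ) * (Λ + 1) ≤ 2 * (C1 * L) ^ 2 := by nlinarith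
  have h4 : L ^ 3 ≤ 64 * Real.log k ^ 3 := by
    calc L ^ 3 ≤ (4 * Real.log k) ^ 3 := pow_le_pow_left₀ hL0.le hL4 3
      _ = _ := by ring
  have h5 : 0 ≤ 2 * C1 ^ 2 * (4 * C2 + 1) * (g / q) * P := by positivity
  calc (unsettled k : ℝ) ≤ Λ * (Λ + 1) * (4 * κ * P + 1) := h1
    _ ≤ 2 * (C1 * L) ^ 2 * ((4 * C2 + 1) * L * (g / q) * P) := by
        apply mul_le_mul h3 h2 (by positivity) (by positivity)
    _ = 2 * C1 ^ 2 * (4 * C2 + 1) * (g / q) * P * L ^ 3 := by ring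
    _ ≤ 2 * C1 ^ 2 * (4 * C2 + 1) * (g / q) * P * (64 * Real.log k ^ 3) :=
        mul_le_mul_of_nonneg_left h4 h5
    _ = _ := by ring

open Classical in
theorem unsettled_le (k : ℕ) : (unsettled k : ℝ) ≤ prim k := by
  have : unsettled k ≤ (range (prim k)).card := card_filter_le _ _
  rw [card_range] at this
  exact_mod_cast this

theorem every (hSP : SmoothPairs) (hHo : Pool.Agent.H469R10.HO.Hoheisel) :
    ∃ C : ℝ, 0 < C ∧ ∀ k : ℕ, 2 ≤ k → (unsettled k : ℝ) ≤ C * Real.log k ^ 3 *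
      (((Nat.nth Nat.Prime k : ℝ) - Nat.nth Nat.Prime (k - 1)) / Nat.nth Nat.Prime k) * prim k := by
  obtain ⟨C, hC, h⟩ := large hSP hHo
  obtain ⟨K0, hK0⟩ := eventually_atTop.1 h
  set D : ℝ := ∑ k ∈ range K0, (Nat.nth Nat.Prime k : ℝ) / Real.log 2 ^ 3 with hD
  have hl2 : 0 < Real.log 2 := Real.log_pos (by norm_num)
  have hD0 : 0 ≤ D := sum_nonneg fun k _ => by positivity
  refine ⟨C + D, by linarith, fun k hk => ?_⟩
  have hP0 : (0 : ℝ) < prim k := by exact_mod_cast prim_pos k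
  have hq0 : (0 : ℝ) < Nat.nth Nat.Prime k := by exact_mod_cast (nth_prime k).pos
  have hg : (1 : ℝ) ≤ (Nat.nth Nat.Prime k : ℝ) - Nat.nth Nat.Prime (k - 1) := by
    have : Nat.nth Nat.Prime (k - 1) < Nat.nth Nat.Prime k := nth_lt (by omega)
    have : (Nat.nth Nat.Prime (k - 1) : ℝ) + 1 ≤ Nat.nth Nat.Prime k := by exact_mod_cast this
    linarith
  have hlk : Real.log 2 ≤ Real.log k := Real.log_le_log (by norm_num) (by exact_mod_cast hk)
  set G : ℝ := ((Nat.nth Nat.Prime k : ℝ) - Nat.nth Nat.Prime (k - 1)) / Nat.nth Nat.Prime k with hG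
  have hG0 : 0 ≤ G := by positivity
  have hL3 : 0 ≤ Real.log k ^ 3 := by positivity
  rcases Nat.lt_or_ge k K0 with hlt | hge
  · have h1 : (Nat.nth Nat.Prime k : ℝ) / Real.log 2 ^ 3 ≤ D :=
      single_le_sum (f := fun k => (Nat.nth Nat.Prime k : ℝ) / Real.log 2 ^ 3)
        (fun k _ => by positivity) (mem_range.2 hlt)
    have h2 : Real.log 2 ^ 3 ≤ Real.log k ^ 3 := pow_le_pow_left₀ hl2.le hlk 3
    have h3 : 1 / (Nat.nth Nat.Prime k : ℝ) ≤ G := div_le_div_of_nonneg_right hg hq0.le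
    have h4 : (1 : ℝ) ≤ (C + D) * Real.log k ^ 3 * G := by
      have h5 : (Nat.nth Nat.Prime k : ℝ) / Real.log 2 ^ 3 * Real.log 2 ^ 3 * (1 / (Nat.nth Nat.Prime k : ℝ)) = 1 := by
        field_simp
      rw [← h5]
      apply mul_le_mul (mul_le_mul (by linarith) h2 (by positivity) (by linarith)) h3 (by positivity)
        (by positivity)
    calc (unsettled k : ℝ) ≤ prim k := unsettled_le k
      _ = 1 * prim k := (one_mul _).symm
      _ ≤ _ := mul_le_mul_of_nonneg_right h4 hP0.le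
  · refine (hK0 k hge).trans ?_
    have : C * Real.log k ^ 3 * G ≤ (C + D) * Real.log k ^ 3 * G :=
      mul_le_mul_of_nonneg_right (mul_le_mul_of_nonneg_right (by linarith) hL3) hG0
    exact mul_le_mul_of_nonneg_right this hP0.le

end Pool.Agent.H774EP
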